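import Pool.Agent.H38.AE.Targets

/-! HC: a prime of controlled size that does not divide a given number. -/

set_option autoImplicit false

namespace Pool.Agent.H10.AE

open Pool.Agent.H38.AE

theorem pf_HC : T_HC := by
  intro c ε hε
  obtain ⟨n, hn⟩ : ∃ n : ℕ, (c : ℝ) < ε * n := by
    obtain ⟨n, hn⟩ := exists_nat_gt ((c : ℝ) / ε)
    exact ⟨n, by rwa [div_lt_iff₀' hε] at hn⟩
  have hn0 : 0 < n := by
    rcases Nat.eq_zero_or_pos n with h | h
    · subst h
      have : (0 : ℝ) ≤ c := Nat.cast_nonneg c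
      simp at hn
      linarith
    · exact h
  refine ⟨2 ^ (n + 1), one_le_pow₀ (by norm_num), ?_⟩
  intro N T L hN hT hTN hL hNL
  have hL1 : L ≤ (⌈L⌉₊ : ℝ) := Nat.le_ceil L
  have hL2 : (⌈L⌉₊ : ℝ) < L + 1 := Nat.ceil_lt_add_one (by linarith)
  obtain ⟨L1, hL1e⟩ : ∃ L1, L1 = ⌈L⌉₊ := ⟨_, rfl⟩
  rw [← hL1e] at hL1 hL2
  have hpos : 0 < L1 := by
    have : (0 : ℝ) < L1 := by linarith
    exact_mod_cast this
  have hpr : ∀ i : ℕ, ∃ p : ℕ, p.Prime ∧ 2 ^ i * L1 < p ∧ p ≤ 2 ^ (i + 1) * L1 := by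
    intro i
    obtain ⟨p, hp, h1, h2⟩ := Nat.exists_prime_lt_and_le_two_mul (2 ^ i * L1)
      (by positivity)
    exact ⟨p, hp, h1, by rw [pow_succ]; linarith⟩
  choose p hp h1 h2 using hpr
  have hlow : ∀ i, L < (p i : ℝ) := by
    intro i
    have h3 : L1 < p i := lt_of_le_of_lt (Nat.le_mul_of_pos_left _ (by positivity)) (h1 i)
    have : (L1 : ℝ) < p i := by exact_mod_cast h3
    linarith
  have hup : ∀ i, i < n → (p i : ℝ) ≤ 2 ^ (n + 1) * L := by
    intro i hi
    have h3 : p i ≤ 2 ^ n * L1 := (h2 i).trans (Nat.mul_le_mul_right _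
      (Nat.pow_le_pow_right (by norm_num) hi))
    have h4 : (p i : ℝ) ≤ 2 ^ n * L1 := by exact_mod_cast h3
    have h5 : (0 : ℝ) < 2 ^ n := by positivity
    calc (p i : ℝ) ≤ 2 ^ n * L1 := h4
      _ ≤ 2 ^ n * (2 * L) := by
          apply mul_le_mul_of_nonneg_left _ h5.le
          linarith
      _ = 2 ^ (n + 1) * L := by ring
  by_contra hcon
  push Not at hcon
  have hdvd : ∀ i, i < n → p i ∣ T := by
    intro i hi
    by_contra hnd
    exact absurd (hup i hi) (not_le.mpr (hcon (p i) (hp i) hnd (hlow i)))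
  have hmono : StrictMono p := strictMono_nat_of_lt_succ
    (fun i => (h2 i).trans_lt (h1 (i + 1)))
  have hprod : ∏ i ∈ Finset.range n, p i ∣ T := by
    have h3 := Finset.prod_primes_dvd (s := (Finset.range n).image p) T
      (by
        intro a ha
        obtain ⟨i, -, rfl⟩ := Finset.mem_image.mp ha
        exact (hp i).prime)
      (by
        intro a ha
        obtain ⟨i, hi, rfl⟩ := Finset.mem_image.mp ha
        exact hdvd i (Finset.mem_range.mp hi))
    rwa [Finset.prod_image (fun a _ b _ h => hmono.injective h)] at h3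
  have hle : ∏ i ∈ Finset.range n, p i ≤ T := Nat.le_of_dvd hT hprod
  have hle' : ∏ i ∈ Finset.range n, (p i : ℝ) ≤ T := by exact_mod_cast hle
  have hlt : L ^ n < ∏ i ∈ Finset.range n, (p i : ℝ) := by
    have h3 := Finset.prod_lt_prod_of_nonempty (s := Finset.range n) (f := fun _ => L)
      (g := fun i => (p i : ℝ)) (fun i _ => by linarith) (fun i _ => hlow i)
      (Finset.nonempty_range_iff.mpr hn0.ne')
    simpa using h3
  have hN1 : (1 : ℝ) ≤ N := by exact_mod_cast hN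
  have hN0 : (0 : ℝ) < N := by linarith
  have h6 : (N : ℝ) ^ (ε * n) ≤ L ^ n := by
    rw [Real.rpow_mul hN0.le, Real.rpow_natCast]
    exact pow_le_pow_left₀ (Real.rpow_nonneg hN0.le _) hNL n
  have h7 : (N : ℝ) ^ c ≤ (N : ℝ) ^ (ε * n) := by
    rw [← Real.rpow_natCast]
    exact Real.rpow_le_rpow_of_exponent_le hN1 hn.le
  have h8 : (T : ℝ) ≤ (N : ℝ) ^ c := by exact_mod_cast hTN
  linarith

end Pool.Agent.H10.AE
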